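import Pool.Agent.H2.CE4

set_option autoImplicit false

namespace Pool.Agent.Results.MP_2695c4_gt.NoCE

open Pool.Agent.H2.CE

universe u

theorem result : ∃ (X Y : Type) (_ : MetricSpace X) (_ : MetricSpace Y) (f : X → Y),
    ULF X ∧ ULF Y ∧ IsCoarse f ∧ UFin f ∧ Function.Bijective f ∧ CoarseEmb.{0} ℝ Y ∧
      ¬ CoarseEmb.{u} ℝ X ∧ ¬ CoarseEmb.{u} ℂ X :=
  ⟨XX, YY, inferInstance, inferInstance, ii, ulfX, ulfY, coarse,
    ⟨1, fun y => (Set.encard_singleton y).le⟩, Function.bijective_id, embY, not_embX ℝ, not_embX ℂ⟩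

end Pool.Agent.Results.MP_2695c4_gt.NoCE
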